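import Pool.Agent.Helper10.RC.Basic

/-! # Packet LimEqP of MP_b55b7c_an -/

open scoped ENNReal NNReal InnerProductSpace ComplexOrder
open Filter Topology

attribute [-instance] CStarMatrix.instAlgebra CStarMatrix.instModule CStarMatrix.instSMul
  CStarMatrix.instMulAction CStarMatrix.instDistribMulAction

set_option autoImplicit false

noncomputable section
namespace RC
universe u

namespace LimEq27

variable {A : Type u} [CStarAlgebra A] [PartialOrder A] [StarOrderedRing A]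
  {ι : Type} [Fintype ι] [DecidableEq ι]

theorem spec_bound (a : CStarMatrix ι ι A) (ha : 0 ≤ a) :
    ∃ R : ℝ, 1 ≤ R ∧ ∀ t ∈ spectrum ℝ a, 0 ≤ t ∧ t ≤ R := by
  obtain ⟨R, hR⟩ := (ContinuousFunctionalCalculus.isCompact_spectrum
    (R := ℝ) (p := IsSelfAdjoint) a).bddAbove
  exact ⟨max R 1, le_max_right _ _, fun t ht => ⟨spectrum_nonneg_of_nonneg ha ht,
    (hR ht).trans (le_max_left _ _)⟩⟩

theorem cont_p (n : ℕ) : Continuous (fun t : ℝ => t ^ (((n : ℝ) + 1)⁻¹)) :=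
  Real.continuous_rpow_const (by positivity)

theorem cont_f (m : ℕ) : Continuous (fun t : ℝ => min 1 ((m : ℝ) * t)) := by fun_prop

theorem tend_rpow (R : ℝ) (hR : 0 < R) :
    Tendsto (fun n : ℕ => R ^ (((n : ℝ) + 1)⁻¹)) atTop (𝓝 1) := by
  have h1 : Tendsto (fun n : ℕ => (((n : ℝ) + 1)⁻¹)) atTop (𝓝 0) := by
    have := tendsto_one_div_add_atTop_nhds_zero_nat (𝕜 := ℝ)
    simpa [one_div] using this
  have h2 := (Real.continuousAt_const_rpow (a := R) (b := 0) hR.ne').tendsto.comp h1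
  rw [Real.rpow_zero] at h2
  exact h2

theorem upper (σ : QTrace A) (a : CStarMatrix ι ι A) (R : ℝ) (hR1 : 1 ≤ R)
    (hR : ∀ t ∈ spectrum ℝ a, 0 ≤ t ∧ t ≤ R) (n : ℕ) (δ : ℝ) (hδ : 0 < δ) (hδ1 : δ < 1)
    (D : ℝ) (hD : ∀ m : ℕ, σ.τ ι (cfc (fun t : ℝ => min 1 ((m : ℝ) * t)) a) ≤ D) :
    σ.τ ι (cfc (fun t : ℝ => t ^ (((n : ℝ) + 1)⁻¹)) a) ≤
      R ^ (((n : ℝ) + 1)⁻¹) * D + δ * σ.τ ι (cfc (fun _ : ℝ => (1 : ℝ)) a) := by
  have hq : 0 ≤ ((n : ℝ) + 1)⁻¹ := by positivity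
  obtain ⟨m, hm⟩ := exists_nat_ge (1 / δ ^ (n + 1))
  have hc : 0 < δ ^ (n + 1) := by positivity
  have hRq : 0 ≤ R ^ (((n : ℝ) + 1)⁻¹) := by positivity
  have hcq : (δ ^ (n + 1)) ^ (((n : ℝ) + 1)⁻¹) = δ := by
    have := Real.pow_rpow_inv_natCast hδ.le (Nat.succ_ne_zero n)
    simpa using this
  have h1 : σ.τ ι (cfc (fun t : ℝ => t ^ (((n : ℝ) + 1)⁻¹)) a) ≤
      σ.τ ι (cfc (fun t : ℝ => R ^ (((n : ℝ) + 1)⁻¹) * min 1 ((m : ℝ) * t) + δ * 1) a) := by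
    refine σ.cfc_mono (cont_p n).continuousOn (by fun_prop)
      (fun t ht => Real.rpow_nonneg (hR t ht).1 _) fun t ht => ?_
    obtain ⟨ht0, htR⟩ := hR t ht
    rcases le_total t (δ ^ (n + 1)) with h | h
    · have h2 : t ^ (((n : ℝ) + 1)⁻¹) ≤ δ := by
        rw [← hcq]
        exact Real.rpow_le_rpow ht0 h hq
      have h3 : 0 ≤ min 1 ((m : ℝ) * t) := le_min zero_le_one (by positivity)
      have h4 := mul_nonneg hRq h3
      linarith
    · have h2 : 1 ≤ (m : ℝ) * t := by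
        calc (1 : ℝ) = 1 / δ ^ (n + 1) * δ ^ (n + 1) := by field_simp
          _ ≤ (m : ℝ) * t := by gcongr
      rw [min_eq_left h2, mul_one, mul_one]
      have h3 := Real.rpow_le_rpow ht0 htR hq
      linarith
  rw [σ.cfc_add (f := fun t : ℝ => R ^ (((n : ℝ) + 1)⁻¹) * min 1 ((m : ℝ) * t))
    (g := fun _ : ℝ => δ * 1) (by fun_prop) (by fun_prop)
    (fun t ht => mul_nonneg hRq (le_min zero_le_one (mul_nonneg (Nat.cast_nonneg m) (hR t ht).1)))
    (fun t ht => by linarith),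
    σ.cfc_smul (f := fun t : ℝ => min 1 ((m : ℝ) * t)) (by fun_prop)
      (fun t ht => le_min zero_le_one (mul_nonneg (Nat.cast_nonneg m) (hR t ht).1)) hRq,
    σ.cfc_smul (f := fun _ : ℝ => (1 : ℝ)) (by fun_prop) (fun t ht => zero_le_one) hδ.le] at h1
  refine h1.trans ?_
  gcongr
  exact hD m

theorem lower (σ : QTrace A) (a : CStarMatrix ι ι A) (R : ℝ)
    (hR : ∀ t ∈ spectrum ℝ a, 0 ≤ t ∧ t ≤ R) (n m : ℕ) (δ : ℝ) (hδ : 0 < δ) (hδ1 : δ < 1) :
    (δ / (m + 1)) ^ (((n : ℝ) + 1)⁻¹) * σ.τ ι (cfc (fun t : ℝ => min 1 ((m : ℝ) * t)) a) ≤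
      σ.τ ι (cfc (fun t : ℝ => t ^ (((n : ℝ) + 1)⁻¹)) a) +
        δ * σ.τ ι (cfc (fun _ : ℝ => (1 : ℝ)) a) := by
  have hq : 0 ≤ ((n : ℝ) + 1)⁻¹ := by positivity
  have hm : (0 : ℝ) < m + 1 := by positivity
  have hs : 0 < δ / (m + 1) := by positivity
  have hs1 : δ / (m + 1) ≤ 1 := by
    rw [div_le_one hm]
    have : (0 : ℝ) ≤ m := Nat.cast_nonneg m
    linarith
  have hsq : 0 ≤ (δ / (m + 1)) ^ (((n : ℝ) + 1)⁻¹) := Real.rpow_nonneg hs.le _
  have hf0 : ∀ t ∈ spectrum ℝ a, 0 ≤ min 1 ((m : ℝ) * t) := fun t ht =>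
    le_min zero_le_one (mul_nonneg (Nat.cast_nonneg m) (hR t ht).1)
  rw [← σ.cfc_smul (f := fun t : ℝ => min 1 ((m : ℝ) * t)) (by fun_prop) hf0 hsq,
    ← σ.cfc_smul (f := fun _ : ℝ => (1 : ℝ)) (by fun_prop) (fun t ht => zero_le_one) hδ.le,
    ← σ.cfc_add (f := fun t : ℝ => t ^ (((n : ℝ) + 1)⁻¹)) (g := fun _ : ℝ => δ * 1)
      (cont_p n).continuousOn (by fun_prop) (fun t ht => Real.rpow_nonneg (hR t ht).1 _)
      (fun t ht => by linarith)]
  refine σ.cfc_mono (by fun_prop) ((cont_p n).continuousOn.add (by fun_prop))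
    (fun t ht => mul_nonneg hsq (hf0 t ht)) fun t ht => ?_
  obtain ⟨ht0, htR⟩ := hR t ht
  rcases le_total t (δ / (m + 1)) with h | h
  · have h2 : min 1 ((m : ℝ) * t) ≤ δ := by
      refine (min_le_right _ _).trans ?_
      calc (m : ℝ) * t ≤ (m + 1) * (δ / (m + 1)) := by
            have : (m : ℝ) ≤ m + 1 := by linarith
            gcongr
        _ = δ := by field_simp
    have h3 : (δ / (m + 1)) ^ (((n : ℝ) + 1)⁻¹) ≤ 1 := Real.rpow_le_one hs.le hs1 hq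
    have h4 : 0 ≤ t ^ (((n : ℝ) + 1)⁻¹) := Real.rpow_nonneg ht0 _
    have h5 : (δ / (m + 1)) ^ (((n : ℝ) + 1)⁻¹) * min 1 ((m : ℝ) * t) ≤ 1 * δ :=
      mul_le_mul h3 h2 (hf0 t ht) zero_le_one
    linarith
  · have h3 : (δ / (m + 1)) ^ (((n : ℝ) + 1)⁻¹) ≤ t ^ (((n : ℝ) + 1)⁻¹) :=
      Real.rpow_le_rpow hs.le h hq
    have h5 : (δ / (m + 1)) ^ (((n : ℝ) + 1)⁻¹) * min 1 ((m : ℝ) * t) ≤
        t ^ (((n : ℝ) + 1)⁻¹) * 1 :=
      mul_le_mul h3 (min_le_left _ _) (hf0 t ht) (Real.rpow_nonneg ht0 _)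
    linarith

end LimEq27

open LimEq27 in
theorem limEqP (h : QBasicP.{u}) : LimEqP.{u} := by
  intro A _ _ _ σ ι _ _ a ha
  obtain ⟨hb, hd0, _, _⟩ := h A σ ι a ha
  obtain ⟨R, hR1, hR⟩ := spec_bound a ha
  have hRp : 0 < R := by linarith
  have hD : ∀ m : ℕ, σ.τ ι (cfc (fun t : ℝ => min 1 ((m : ℝ) * t)) a) ≤ σ.dim a :=
    fun m => le_ciSup hb m
  set T : ℝ := σ.τ ι (cfc (fun _ : ℝ => (1 : ℝ)) a) with hT
  have hT0 : 0 ≤ T := σ.nonneg ι _ (cfc_nonneg fun _ _ => zero_le_one)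
  refine Tendsto.limUnder_eq ?_
  rw [tendsto_order]
  constructor
  · intro b hbD
    obtain ⟨m, hm⟩ := exists_lt_of_lt_ciSup (f := fun m : ℕ =>
      σ.τ ι (cfc (fun t : ℝ => min 1 ((m : ℝ) * t)) a)) hbD
    have hgap : 0 < σ.τ ι (cfc (fun t : ℝ => min 1 ((m : ℝ) * t)) a) - b := sub_pos.2 hm
    set g := σ.τ ι (cfc (fun t : ℝ => min 1 ((m : ℝ) * t)) a) with hg
    set δ : ℝ := min (1 / 2) ((g - b) / (2 * (T + 1))) with hδ
    have hδ0 : 0 < δ := lt_min (by norm_num) (by positivity)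
    have hδ1 : δ < 1 := lt_of_le_of_lt (min_le_left _ _) (by norm_num)
    have hδT : δ * T ≤ (g - b) / 2 := by
      calc δ * T ≤ ((g - b) / (2 * (T + 1))) * (T + 1) := by
            gcongr
            · exact min_le_right _ _
            · linarith
        _ = (g - b) / 2 := by field_simp
    have h1 : Tendsto (fun n : ℕ => (δ / (m + 1)) ^ (((n : ℝ) + 1)⁻¹) * g) atTop (𝓝 (1 * g)) :=
      (tend_rpow _ (by positivity)).mul_const g
    rw [one_mul] at h1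
    have h2 : b + (g - b) / 2 < g := by linarith
    filter_upwards [h1.eventually (lt_mem_nhds h2)] with n hn
    have h3 := lower σ a R hR n m δ hδ0 hδ1
    rw [← hT, ← hg] at h3
    linarith
  · intro b hbD
    have h1 : Tendsto (fun n : ℕ => R ^ (((n : ℝ) + 1)⁻¹) * σ.dim a) atTop
        (𝓝 (1 * σ.dim a)) := (tend_rpow R hRp).mul_const _
    rw [one_mul] at h1
    filter_upwards [h1.eventually (gt_mem_nhds hbD)] with n hn
    refine lt_of_le_of_lt ?_ hn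
    refine le_of_forall_pos_le_add fun ε hε => ?_
    have h3 := upper σ a R hR1 hR n (min (1 / 2) (ε / (T + 1)))
      (lt_min (by norm_num) (by positivity)) (lt_of_le_of_lt (min_le_left _ _) (by norm_num))
      (σ.dim a) hD
    refine h3.trans ?_
    rw [← hT]
    have h4 : min (1 / 2) (ε / (T + 1)) * T ≤ ε := by
      calc min (1 / 2) (ε / (T + 1)) * T ≤ (ε / (T + 1)) * (T + 1) := by
            gcongr
            · exact min_le_right _ _
            · linarith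
        _ = ε := by field_simp
    linarith

end RC
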