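import Pool.Agent.Helper70.RC.Goals

/-!
# Project TW (MP_c7dfba_nt), part RC, packet ULTRA

Every real closed field embeds into an ultrapower of the real numbers.
-/

namespace Pool.Agent.Helper27.RC

universe u v

open Pool.Agent.Helper70.RC

/-- For a finite set `S`, a map to the real closed subfield that respects the relations in `S`. -/
theorem exists_theta (hE : EC.{u}) (R₀ R : Type u) [Field R₀] [IsRealClosed R₀] [Field R]
    [IsRealClosed R] [Algebra R₀ R] (S : Finset R) :
    ∃ θ : R → R₀, (1 ∈ S → θ 1 = 1) ∧ (0 ∈ S → θ 0 = 0) ∧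
      (∀ x y, x ∈ S → y ∈ S → x + y ∈ S → θ (x + y) = θ x + θ y) ∧
      (∀ x y, x ∈ S → y ∈ S → x * y ∈ S → θ (x * y) = θ x * θ y) := by
  classical
  set e := S.equivFin with he
  obtain ⟨a, ha⟩ := hE S.card R₀ R (fun i => ((e.symm i : S) : R))
  refine ⟨fun r => if h : r ∈ S then a (e ⟨r, h⟩) else 0, ?_, ?_, ?_, ?_⟩
  · intro h
    have := ha (MvPolynomial.X (e ⟨1, h⟩) - 1) (by simp)
    simp only [map_sub, MvPolynomial.eval_X, map_one] at this
    simp only [h, dif_pos]
    exact sub_eq_zero.1 this
  · intro h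
    have := ha (MvPolynomial.X (e ⟨0, h⟩)) (by simp)
    simp only [MvPolynomial.eval_X] at this
    simp only [h, dif_pos]
    exact this
  · intro x y hx hy h
    have := ha (MvPolynomial.X (e ⟨x + y, h⟩) -
      (MvPolynomial.X (e ⟨x, hx⟩) + MvPolynomial.X (e ⟨y, hy⟩))) (by simp)
    simp only [map_sub, map_add, MvPolynomial.eval_X] at this
    simp only [h, hx, hy, dif_pos]
    exact sub_eq_zero.1 this
  · intro x y hx hy h
    have := ha (MvPolynomial.X (e ⟨x * y, h⟩) -
      (MvPolynomial.X (e ⟨x, hx⟩) * MvPolynomial.X (e ⟨y, hy⟩))) (by simp)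
    simp only [map_sub, map_mul, MvPolynomial.eval_X] at this
    simp only [h, hx, hy, dif_pos]
    exact sub_eq_zero.1 this

theorem ultra : RCALG.{u, 0} → RCREAL.{u} → EC.{u} → ULTRA.{u} := by
  intro hA hR hE R _ _
  classical
  have : IsRealClosed (algebraicClosure ℚ R) := hA ℚ R
  obtain ⟨ψ⟩ := hR R
  choose θ hθ1 hθ0 hθa hθm using exists_theta hE (algebraicClosure ℚ R) R
  let U : Ultrafilter (Finset R) := Ultrafilter.of Filter.atTop
  have hU : ∀ T : Finset R, ∀ᶠ S in (U : Filter (Finset R)), T ≤ S := fun T =>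
    (Ultrafilter.of_le Filter.atTop) (Filter.eventually_ge_atTop T)
  have hmem : ∀ x : R, ∀ᶠ S in (U : Filter (Finset R)), x ∈ S := fun x =>
    (hU {x}).mono fun S hS => hS (Finset.mem_singleton_self x)
  refine ⟨Finset R, U, ⟨?_⟩⟩
  exact
    { toFun := fun x => ((fun S => ψ (θ S x) : Finset R → ℝ) : (U : Filter (Finset R)).Germ ℝ)
      map_one' := by
        refine Filter.Germ.coe_eq.2 ?_
        filter_upwards [hmem 1] with S h1
        rw [hθ1 S h1, map_one]
      map_zero' := by
        refine Filter.Germ.coe_eq.2 ?_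
        filter_upwards [hmem 0] with S h1
        rw [hθ0 S h1, map_zero]
      map_add' := by
        intro x y
        refine Filter.Germ.coe_eq.2 ?_
        filter_upwards [hmem x, hmem y, hmem (x + y)] with S h1 h2 h3
        rw [hθa S x y h1 h2 h3, map_add]
      map_mul' := by
        intro x y
        refine Filter.Germ.coe_eq.2 ?_
        filter_upwards [hmem x, hmem y, hmem (x * y)] with S h1 h2 h3
        rw [hθm S x y h1 h2 h3, map_mul] }

end Pool.Agent.Helper27.RC
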